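import Pool.Agent.H36.KM.Fin2

/-!
# The Tauberian Tate conjecture for almost all Kummer surfaces and other varieties built from hyperelliptic
curves and their branch points

Let `f_i = ∑ c_{i,j} x^j`, `j = 0, …, d_i`, be polynomials of even degrees `d_i ≥ 4` with integral
coefficients, and let `C_i : y² = f_i(x)` be the curves of genus `(d_i - 2) / 2` (with the points at
infinity `y² = c_{i,d_i}`), for `i = 1, …, r`; for `d_i = 6` every curve of genus two over `ℚ` is of this
form.  The `d_i` branch points of `C_i` are permuted by the Galois group.  For a composition `μ_i` of `d_i`
let `M^{μ_i}` be the permutation representation on the ordered partitions of type `μ_i` of the set of the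
branch points of `C_i`; every character of the symmetric group is an integral combination of the
characters of the `M^{μ_i}`.  For `x = (t, μ)`, `t_i ∈ {0, 1, 2, 3}`, let `W_x` be the tensor product of the
`R_{t_i}(C_i) ⊗ M^{μ_i}`, where `R_0, …, R_3` are the trivial representation, `Λ²H¹(C_i)(1)`,
`Sym²H¹(C_i)(1)` and `H¹(C_i)(1/2)`.  We study the question for the smooth projective varieties `V` over `ℚ`
for which `H²(V)(1)` is the sum `W` of `e x` copies of the `W_x`.  Examples:

* the Kummer surface of the Jacobian of a curve of genus two: `r = 1`, `d = 6`, and
  `H²(V)(1) = Λ²H¹(C)(1) ⊕ 1 ⊕ M^{(2, 4)}` (the `16` exceptional curves correspond to the points of order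
  at most two: to zero and to the `15` pairs of branch points); the rank over `ℚ` of the Néron–Severi
  group of a general one is `ρ = 3`, the geometric Picard number is `17`;
* the Kummer varieties `J / ± 1`, with the `2^{2g}` points blown up, of the Jacobians `J` for all `g ≥ 2`;
* the resolutions of the double covers `y² = f_1(x_1) f_2(x_2)` of `ℙ¹ × ℙ¹` (for `d_1 = d_2 = 4` Kummer
  surfaces for products of two curves of genus one), where `H²(V)(1)` is the sum of
  `H¹(C_1) ⊗ H¹(C_2)(1)`, of two copies of `1` and of `M^{(1, d_1 - 1)} ⊗ M^{(1, d_2 - 1)}`; `ρ = 3`;
* the products of the `C_i`, their Jacobians and Kummer varieties, blown up at the sets of branch points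
  or of points of order two, projective bundles over them, Hilbert schemes of points of the surfaces;
* all these varieties over the number fields `K` generated by sets of branch points (for instance by the
  coordinates of the points of order two, which depend on `c`): the sum over the primes of `K` is, up to
  `O(√T)`, the sum over `p` of the trace on `H²(V)(1) ⊗ Ind_K 1`, which is again a sum of `W_x`;
  equivalently, the restrictions of scalars from `K` to `ℚ`.  For the field generated by all branch
  points one gets the geometric Picard numbers, as `17` for the Kummer surfaces.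

By the formula of Lefschetz the trace `b_p(V)` of Frobenius on `H²(V)` at the primes `p` of good
reduction of the `C_i` is `p trW e c p`.  The predicted rank is the sum `ρ = mult e` of the `e x` with
all `t_i = 0` or `1`; it is the multiplicity of the trivial representation in `H²(V)(1)`, and the rank
of `NS(V/ℚ)`, if the Galois group of `∏ f_i` is the product of the symmetric groups and the image of
the Galois group in the `Aut H¹(C_i)` is as large as possible, which is so for almost all `c` (this is
not proved here).

The theorem says: apart from a set of proportion `O(A⁻²)` of the `c` with coefficients at most `H`, the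
sum of `b_p(V) log(p) / p` over the good primes `p < T` is `ρ ∑_{p < T} log p` with an error of at most
`A · ‖e‖ · T^{1/2} (log T)³`, `‖e‖ = ∑ |e x|`, for all these `V` and for all `T ≤ (H/8)^{1/4}` at the same
time; and the same with arbitrary weights `|w_p| ≤ 1` (for instance a Dirichlet character, which gives
the twists of these representations).  Consequently, for `η > 0` there is a `T₀` such that for all `H`,
apart from a proportion `η` of the `c`, the average of the question is within `η ‖e‖` of `ρ` for all `V`
and all `T` with `T₀ ≤ T ≤ (H/8)^{1/4}`.

The proof: the values of a random polynomial modulo `p` at a few points of the projective line over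
`𝔽_p`, and over the field with `p²` elements, are independent, which gives the second and the fourth
moments of the traces on `H¹`; the joint means of the traces and of the numbers of the factorizations of
a given type follow by summing over the factors, as the correlations of the quadratic character of the
values of monic polynomials vanish in degree at least two and are `-1` in degree one; and the
maximal inequality for functions of the reduction of an integral vector
(`Pool.Agent.Y722.ST.effective_weights`, `abel_log`) and the prime number theorem (`Pool.Agent.Cov.PNT`)
of the library.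
-/

set_option autoImplicit false

namespace Pool.Agent.Results.MP_4589ac_nt.RandomKummerVarieties

open Pool.Agent.H36.KM
open Pool.Agent.K1H81.HW (thetaSum)

/-- **The Tauberian Tate conjecture for almost all varieties built from hyperelliptic curves and their
branch points.** -/
theorem result (r : ℕ) (d : Fin r → ℕ) (hd : ∀ i, 4 ≤ d i) :
    (∃ C : ℝ, 0 < C ∧ ∀ w : ℕ → ℝ, (∀ p, |w p| ≤ 1) → ∀ (H : ℕ) (A : ℝ), 0 < A →
      ({c : (Σ i, Fin (d i + 1)) → ℤ | (∀ j, |c j| ≤ H) ∧ ∃ (e : Idx r d → ℝ) (T : ℕ), 2 ≤ T ∧
        8 * T ^ 4 ≤ H ∧ A * norm1 e * (√T * Real.log T ^ 3) <
          |tateW e c w T - mult e * thetaSum w T|}.ncard : ℝ) ≤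
        C / A ^ 2 * (2 * H + 1 : ℝ) ^ Fintype.card (Σ i, Fin (d i + 1))) ∧
    (∀ η : ℝ, 0 < η → ∃ T₀ : ℕ, ∀ H : ℕ,
      ({c : (Σ i, Fin (d i + 1)) → ℤ | (∀ j, |c j| ≤ H) ∧ ∃ (e : Idx r d → ℝ) (T : ℕ), T₀ ≤ T ∧
        8 * T ^ 4 ≤ H ∧ η * norm1 e < |tateW e c (fun _ => 1) T / T - mult e|}.ncard : ℝ) ≤
        η * (2 * H + 1 : ℝ) ^ Fintype.card (Σ i, Fin (d i + 1))) :=
  ⟨lawT hd, fun η hη => limT hd η hη⟩

end Pool.Agent.Results.MP_4589ac_nt.RandomKummerVarieties
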